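import Mathlib
import Pool.Agent.Helper5.NE.Stmts

/-! Algebra of the rotations (own copy) -/

namespace Pool.Agent.Helper11.NE

open Pool.Agent.Helper5.NE
open scoped InnerProductSpace ComplexConjugate ENNReal

noncomputable section

variable {α : Type}

theorem bd_c1 (r : Rot) : Bd r.c1 := by
  refine ⟨1, fun u => ?_⟩
  have h2 : ‖((1 / √2 : ℝ) : ℂ)‖ ≤ 1 := by
    rw [Complex.norm_real, Real.norm_of_nonneg (by positivity)]
    have : (1 : ℝ) ≤ √2 := by
      rw [show (1 : ℝ) = √1 by simp]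
      exact Real.sqrt_le_sqrt (by norm_num)
    rw [div_le_one (by positivity)]
    exact this
  unfold Rot.c1
  rcases r.sg u.2 with _ | _ | _
  · simp
  · exact h2
  · show ‖((-(1 / √2) : ℝ) : ℂ)‖ ≤ 1
    rw [Complex.ofReal_neg, norm_neg]
    exact h2

theorem bd_c2 (r : Rot) : Bd r.c2 := by
  refine ⟨1, fun u => ?_⟩
  have h2 : ‖((1 / √2 : ℝ) : ℂ)‖ ≤ 1 := by
    rw [Complex.norm_real, Real.norm_of_nonneg (by positivity)]
    have : (1 : ℝ) ≤ √2 := by
      rw [show (1 : ℝ) = √1 by simp]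
      exact Real.sqrt_le_sqrt (by norm_num)
    rw [div_le_one (by positivity)]
    exact this
  unfold Rot.c2
  rcases r.sg u.2 with _ | _ | _
  · simp
  · exact h2
  · exact h2

theorem U_del (r : Rot) (u : X) : r.U (del u) = r.c1 u • del u + r.c2 u • del (r.kap u) := by
  unfold Rot.U
  rw [add_apply, wp_del _ (bd_c1 r), wp_del _ (bd_c2 r)]
  rfl

theorem c1_none (r : Rot) {u : X} (h : r.sg u.2 = none) : r.c1 u = 1 := by
  unfold Rot.c1; rw [h]

theorem c2_none (r : Rot) {u : X} (h : r.sg u.2 = none) : r.c2 u = 0 := by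
  unfold Rot.c2; rw [h]

theorem U_del_none (r : Rot) {u : X} (h : r.sg u.2 = none) : r.U (del u) = del u := by
  rw [U_del, c1_none r h, c2_none r h]
  simp

theorem kap_some (r : Rot) {u : X} {b : Bool} (h : r.sg u.2 = some b) :
    r.kap u = (RW.Rs (r.lt u.2) u.1, r.P u.2) := by
  unfold Rot.kap
  rw [if_neg (by rw [h]; simp)]

theorem kap_none (r : Rot) {u : X} (h : r.sg u.2 = none) : r.kap u = u := by
  unfold Rot.kap
  rw [if_pos h]

theorem sg_kap (r : Rot) {u : X} {b : Bool} (h : r.sg u.2 = some b) :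
    r.sg (r.kap u).2 = some (!b) := by
  rw [kap_some r h]
  exact r.sg_P _ _ h

theorem sq2 : ((1 / √2 : ℝ) : ℂ) * ((1 / √2 : ℝ) : ℂ) = 1 / 2 := by
  have h : (1 / √2 : ℝ) * (1 / √2 : ℝ) = 1 / 2 := by
    rw [div_mul_div_comm, Real.mul_self_sqrt (by norm_num)]
    norm_num
  rw [← Complex.ofReal_mul, h]
  push_cast
  rfl

theorem U_U (r : Rot) : r.U * r.U = 1 := by
  refine ext_del (fun u => ?_)
  rw [mul_apply_eq_comp]
  rcases h : r.sg u.2 with _ | b
  · rw [U_del_none r h, U_del_none r h]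
    rfl
  · rw [U_del, map_add, map_smul, map_smul, U_del, U_del, r.kap_kap]
    have h' := sg_kap r h
    have e1 : r.c2 u = ((1 / √2 : ℝ) : ℂ) := by unfold Rot.c2; rw [h]
    have e2 : r.c2 (r.kap u) = ((1 / √2 : ℝ) : ℂ) := by unfold Rot.c2; rw [h']
    have e3 : r.c1 (r.kap u) = - r.c1 u := by
      unfold Rot.c1; rw [h, h']; rcases b with _ | _ <;> simp
    have e4 : r.c1 u * r.c1 u = 1 / 2 := by
      unfold Rot.c1; rw [h]; rcases b with _ | _
      · exact sq2
      · show ((-(1 / √2) : ℝ) : ℂ) * ((-(1 / √2) : ℝ) : ℂ) = 1 / 2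
        rw [Complex.ofReal_neg, neg_mul_neg]
        exact sq2
    rw [e1, e2, e3]
    have e5 := sq2
    generalize ((1 / √2 : ℝ) : ℂ) = q at *
    have : r.c1 u • (r.c1 u • del u + q • del (r.kap u)) +
        q • (-r.c1 u • del (r.kap u) + q • del u) =
        (r.c1 u * r.c1 u + q * q) • (del u : L2 X) := by
      module
    rw [this, e4, e5]
    norm_num

theorem kapE_symm (r : Rot) : r.kapE.symm = r.kapE := rfl

theorem U_star (r : Rot) : star r.U = r.U := by
  unfold Rot.U
  rw [star_add, wp_adjoint _ (bd_c1 r), wp_adjoint _ (bd_c2 r)]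
  congr 1
  · congr 1
    funext u
    show conj (r.c1 u) = r.c1 u
    unfold Rot.c1
    rcases r.sg u.2 with _ | _ | _
    · simp
    · exact Complex.conj_ofReal _
    · exact Complex.conj_ofReal _
  · rw [kapE_symm]
    congr 1
    funext u
    show conj (r.c2 (r.kap u)) = r.c2 u
    unfold Rot.c2
    rcases h : r.sg u.2 with _ | b
    · rw [kap_none r h, h]
      simp
    · rw [sg_kap r h]
      exact Complex.conj_ofReal _

theorem U_Lam (r : Rot) (s : Fin 9) :
    r.U * wp (Lam s) (fun _ => 1) = wp (Lam s) (fun _ => 1) * r.U := by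
  refine ext_del (fun u => ?_)
  rw [mul_apply_eq_comp, mul_apply_eq_comp, wp_del _ bd_one, U_del, map_smul, U_del, map_add,
    map_smul, map_smul, wp_del _ bd_one, wp_del _ bd_one, one_smul, one_smul, one_smul]
  have e1 : r.c1 (Lam s u) = r.c1 u := rfl
  have e2 : r.c2 (Lam s u) = r.c2 u := rfl
  have e3 : r.kap (Lam s u) = Lam s (r.kap u) := by
    rcases h : r.sg u.2 with _ | b
    · rw [kap_none r h, kap_none r (u := Lam s u) h]
    · rw [kap_some r h, kap_some r (u := Lam s u) h]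
      rw [Lam_apply, Lam_apply, RW.Ls_Rs]
  rw [e1, e2, e3]

/-- two rotations that agree on the column of `u` agree on `del u` -/
theorem U_del_congr (r r' : Rot) {u : X} (h1 : r.sg u.2 = r'.sg u.2) (h2 : r.P u.2 = r'.P u.2)
    (h3 : r.lt u.2 = r'.lt u.2) : r.U (del u) = r'.U (del u) := by
  rw [U_del, U_del]
  have e1 : r.c1 u = r'.c1 u := by unfold Rot.c1; rw [h1]
  have e2 : r.c2 u = r'.c2 u := by unfold Rot.c2; rw [h1]
  have e3 : r.kap u = r'.kap u := by unfold Rot.kap; rw [h1, h2, h3]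
  rw [e1, e2, e3]

end

end Pool.Agent.Helper11.NE
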