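import Mathlib
import Pool.Agent.Helper5.NE.Stmts
import Pool.Agent.Helper11.NE.RotAlg

/-! Packet P16 of `S06356`: rotated generators lie in the span of monomials of bounded displacement. -/

namespace Pool.Agent.Helper11.NE

open Pool.Agent.Helper5.NE
open scoped InnerProductSpace ComplexConjugate ENNReal

noncomputable section

/-! ### Parent map -/

/-- parent map -/
def par (u : X) : X := if u.1.1 = [] then (RW.nil, u.2 + 1) else (u.1.tl, u.2)

/-- potential -/
def pot (u : X) : ℤ := (u.2 : ℤ) - (u.1.1.length : ℤ)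

theorem pot_par (u : X) : pot (par u) = pot u + 1 := by
  rcases u with ⟨⟨l, hl⟩, i⟩
  rcases l with _ | ⟨a, l⟩
  · simp [pot, par, RW.nil]
  · simp [pot, par, RW.tl]
    ring

theorem pot_iter (u : X) (a : ℕ) : pot (par^[a] u) = pot u + a := by
  induction a with
  | zero => simp
  | succ a ih =>
    rw [Function.iterate_succ_apply', pot_par, ih]
    push_cast
    ring

theorem par_inj (u : X) : Function.Injective (fun a : ℕ => par^[a] u) := by
  intro a b h
  have h1 := pot_iter u a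
  have h2 := pot_iter u b
  simp only at h
  rw [h] at h1
  have : (a : ℤ) = b := by linarith
  exact_mod_cast this

theorem par_nil (i : ℕ) (a : ℕ) : par^[a] (RW.nil, i) = (RW.nil, i + a) := by
  induction a with
  | zero => simp
  | succ a ih =>
    rw [Function.iterate_succ_apply', ih]
    simp [par, RW.nil, Nat.add_assoc]

theorem par_len (l : List (Fin 9)) : ∀ (h : l.IsChain (· ≠ ·)) (i : ℕ),
    par^[l.length] (⟨l, h⟩, i) = (RW.nil, i) := by
  induction l with
  | nil => intro h i; rfl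
  | cons a l ih =>
    intro h i
    rw [List.length_cons, Function.iterate_succ_apply]
    have : par (⟨a :: l, h⟩, i) = (⟨l, h.tail⟩, i) := by
      simp [par, RW.tl]
    rw [this]
    exact ih _ i

theorem par_merge (u v : X) : ∃ a b, par^[a] u = par^[b] v := by
  rcases u with ⟨⟨l, hl⟩, i⟩
  rcases v with ⟨⟨l', hl'⟩, j⟩
  refine ⟨j + l.length, i + l'.length, ?_⟩
  rw [Function.iterate_add_apply, Function.iterate_add_apply, par_len, par_len, par_nil, par_nil,
    Nat.add_comm]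

theorem par_fib : ∃ B : ℕ, ∀ z, ∃ s : Finset X, s.card ≤ B ∧ ∀ u, par u = z → u ∈ s := by
  classical
  refine ⟨10, fun z => ⟨(Finset.univ.image (fun s : Fin 9 => (RW.Ls s z.1, z.2))) ∪
    {(RW.nil, z.2 - 1)}, ?_, ?_⟩⟩
  · refine (Finset.card_union_le _ _).trans ?_
    have h1 : (Finset.univ.image (fun s : Fin 9 => (RW.Ls s z.1, z.2))).card ≤ 9 := by
      refine Finset.card_image_le.trans ?_
      simp
    rw [Finset.card_singleton]
    omega
  · rintro ⟨⟨l, hl⟩, i⟩ rfl
    rw [Finset.mem_union]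
    rcases l with _ | ⟨a, l⟩
    · right
      simp [par, RW.nil]
    · left
      rw [Finset.mem_image]
      refine ⟨a, Finset.mem_univ _, ?_⟩
      have e : par (⟨a :: l, hl⟩, i) = (⟨l, hl.tail⟩, i) := by
        simp [par, RW.tl]
      rw [e]
      refine Prod.ext (Subtype.ext ?_) rfl
      have hl2 : l.IsChain (· ≠ ·) := hl.tail
      refine (RW.Ls_val a ⟨l, hl2⟩).trans ?_
      show (if l.head? = some a then l.tail else a :: l) = a :: l
      have h2 : ¬ (l.head? = some a) := by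
        intro h3
        rcases l with _ | ⟨b, l⟩
        · simp at h3
        · simp only [List.head?_cons, Option.some.injEq] at h3
          subst h3
          exact (List.isChain_cons_cons.1 hl).1 rfl
      rw [if_neg h2]

/-! ### Global index set of active columns -/

section Glob

variable {F : Type} {A : F → Set ℕ} (bd : ∀ f, BD (A f)) (I : Finset F)

/-- tail blocks -/
def Tl (f : F) : Set ℕ := {n | ∀ p : Bool × Option (Fin (bd f).m) × Fin ((bd f).k n),
  ∀ g ∈ I, g ≠ f → (bd f).b ⟨n, p⟩ ∉ A g}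

theorem Tl_compl_finite (had : ∀ f g, f ≠ g → (A f ∩ A g).Finite) (f : F) :
    (Tl bd I f)ᶜ.Finite := by
  classical
  have h1 : (⋃ g ∈ I.filter (fun g => g ≠ f), A f ∩ A g).Finite := by
    refine Set.Finite.biUnion (Finset.finite_toSet _) (fun g hg => ?_)
    exact had f g (Ne.symm (Finset.mem_filter.1 hg).2)
  have h2 : ((bd f).b ⁻¹' (⋃ g ∈ I.filter (fun g => g ≠ f), A f ∩ A g)).Finite :=
    Set.Finite.preimage ((bd f).inj.injOn) h1
  refine (h2.image Sigma.fst).subset ?_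
  intro n hn
  simp only [Tl, Set.mem_compl_iff, Set.mem_ofPred_eq, not_forall, not_not] at hn
  obtain ⟨p, g, hg, hgf, hp⟩ := hn
  refine ⟨⟨n, p⟩, ?_, rfl⟩
  rw [Set.mem_preimage, Set.mem_iUnion₂]
  exact ⟨g, Finset.mem_filter.2 ⟨hg, hgf⟩, (bd f).mem _, hp⟩

/-- the index type of active block columns -/
abbrev JJ : Type := Σ f : {f // f ∈ I}, {p : BI (bd f.1).m (bd f.1).k // p.1 ∈ Tl bd I f.1}

/-- the active column with a given index -/
def BB (p : JJ bd I) : ℕ := (bd p.1.1).b p.2.1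

theorem BB_inj : Function.Injective (BB bd I) := by
  rintro ⟨⟨f, hf⟩, ⟨p, hp⟩⟩ ⟨⟨g, hg⟩, ⟨q, hq⟩⟩ h
  by_cases hfg : f = g
  · subst hfg
    have h2 := (bd f).inj h
    subst h2
    rfl
  · refine absurd ((bd g).mem q) ?_
    have h2 : (bd f).b p = (bd g).b q := h
    rw [← h2]
    exact hp p.2 g hg (Ne.symm hfg)

open Classical in
/-- partial inverse of `BB` -/
def jd (i : ℕ) : Option (JJ bd I) := if h : ∃ p, BB bd I p = i then some h.choose else none

theorem jd_BB (p : JJ bd I) : jd bd I (BB bd I p) = some p := by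
  have h : ∃ q, BB bd I q = BB bd I p := ⟨p, rfl⟩
  unfold jd
  rw [dif_pos h]
  exact congrArg some (BB_inj bd I h.choose_spec)

theorem BB_of_jd {i : ℕ} {p : JJ bd I} (h : jd bd I i = some p) : BB bd I p = i := by
  unfold jd at h
  split_ifs at h with h2
  · rw [← Option.some.inj h]
    exact h2.choose_spec

/-- lift of a self-map to the columns -/
def jl (g : JJ bd I → JJ bd I) (i : ℕ) : ℕ := match jd bd I i with
  | none => i
  | some p => BB bd I (g p)

theorem jl_BB (g : JJ bd I → JJ bd I) (p : JJ bd I) : jl bd I g (BB bd I p) = BB bd I (g p) := by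
  unfold jl
  rw [jd_BB]

theorem jl_none (g : JJ bd I → JJ bd I) {i : ℕ} (h : jd bd I i = none) : jl bd I g i = i := by
  unfold jl
  rw [h]

/-- flip -/
def jflip (p : JJ bd I) : JJ bd I := ⟨p.1, ⟨flipB p.2.1, p.2.2⟩⟩

theorem jflip_jflip (p : JJ bd I) : jflip bd I (jflip bd I p) = p := by
  rcases p with ⟨⟨f, hf⟩, ⟨⟨n, b, q⟩, hp⟩⟩
  simp only [jflip, flipB, Bool.not_not]

/-- the global rotation -/
def rho : Rot where
  P := jl bd I (jflip bd I)
  sg i := (jd bd I i).map (fun p => p.2.1.2.1)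
  lt i := match jd bd I i with
    | none => 0
    | some p => (bd p.1.1).s
  P_P i := by
    rcases h : jd bd I i with _ | p
    · rw [jl_none _ _ _ h, jl_none _ _ _ h]
    · rw [← BB_of_jd bd I h, jl_BB, jl_BB, jflip_jflip]
  P_none i h := by
    rcases h2 : jd bd I i with _ | p
    · exact jl_none _ _ _ h2
    · rw [h2] at h
      simp at h
  sg_P i b h := by
    rcases h2 : jd bd I i with _ | p
    · rw [h2] at h
      simp at h
    · rw [h2] at h
      rw [← BB_of_jd bd I h2, jl_BB, jd_BB]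
      simp only [Option.map_some, Option.some.injEq] at h ⊢
      rw [← h]
      rfl
  lt_P i := by
    rcases h2 : jd bd I i with _ | p
    · rw [jl_none _ _ _ h2, h2]
    · rw [← BB_of_jd bd I h2, jl_BB, jd_BB]
      rfl

theorem rho_sg (p : JJ bd I) : (rho bd I).sg (BB bd I p) = (bd p.1.1).rot.sg (BB bd I p) := by
  show (jd bd I (BB bd I p)).map _ = ((bd p.1.1).dec ((bd p.1.1).b p.2.1)).map _
  rw [jd_BB, (bd p.1.1).dec_b]
  rfl

theorem rho_P (p : JJ bd I) : (rho bd I).P (BB bd I p) = (bd p.1.1).rot.P (BB bd I p) := by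
  show jl bd I _ (BB bd I p) = (bd p.1.1).lift flipB ((bd p.1.1).b p.2.1)
  rw [jl_BB, (bd p.1.1).lift_b]
  rfl

theorem rho_lt (p : JJ bd I) : (rho bd I).lt (BB bd I p) = (bd p.1.1).rot.lt (BB bd I p) := by
  show (match jd bd I (BB bd I p) with
    | none => 0
    | some p => (bd p.1.1).s) = (bd p.1.1).s
  rw [jd_BB]

theorem rho_del (p : JJ bd I) (x : RW) :
    (rho bd I).U (del (x, BB bd I p)) = (bd p.1.1).rot.U (del (x, BB bd I p)) :=
  U_del_congr _ _ (rho_sg bd I p) (rho_P bd I p) (rho_lt bd I p)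

theorem rho_none {i : ℕ} (h : jd bd I i = none) : (rho bd I).sg i = none := by
  show (jd bd I i).map _ = none
  rw [h]
  rfl

end Glob

/-- column map of the projection inside one block datum -/
def pbB {A : Set ℕ} (d : BD A) : BI d.m d.k → BI d.m d.k
  | ⟨n, true, (some j, c)⟩ => ⟨n, true, (none, d.w n j c)⟩
  | ⟨n, true, (none, c)⟩ => ⟨n, true, (none, c)⟩
  | ⟨n, false, (_, c)⟩ => ⟨n, false, (none, c)⟩

theorem pbB_fst {A : Set ℕ} (d : BD A) (p : BI d.m d.k) : (pbB d p).1 = p.1 := by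
  rcases p with ⟨n, _ | _, _ | j, c⟩ <;> rfl

/-- candidate preimage under `pbB` -/
def pinv {A : Set ℕ} (d : BD A) (q : BI d.m d.k) : Option (Fin d.m) → BI d.m d.k :=
  fun o => match q.2.1, o with
    | true, some j => ⟨q.1, true, (some j, (d.w q.1 j).symm q.2.2.2)⟩
    | be, o => ⟨q.1, be, (o, q.2.2.2)⟩

theorem pinv_fst {A : Set ℕ} (d : BD A) (q : BI d.m d.k) (o : Option (Fin d.m)) :
    (pinv d q o).1 = q.1 := by
  rcases q with ⟨n, _ | _, _ | j, c⟩ <;> rcases o with _ | j' <;> rfl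

theorem pinv_pbB {A : Set ℕ} (d : BD A) (p : BI d.m d.k) : pinv d (pbB d p) p.2.2.1 = p := by
  rcases p with ⟨n, _ | _, _ | j, c⟩
  · rfl
  · rfl
  · rfl
  · exact congrArg (fun c' => (⟨n, true, (some j, c')⟩ : BI d.m d.k))
      ((d.w n j).symm_apply_apply c)

section Glob2

variable {F : Type} {A : F → Set ℕ} (bd : ∀ f, BD (A f)) (I : Finset F)

/-- the projection on active indices -/
def jpb (p : JJ bd I) : JJ bd I :=
  ⟨p.1, ⟨pbB (bd p.1.1) p.2.1, by rw [pbB_fst]; exact p.2.2⟩⟩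

/-- the projection -/
def pp (u : X) : X := (u.1, jl bd I (jpb bd I) u.2)

/-- candidate preimages of an active index -/
def jinv (q : JJ bd I) (o : Option (Fin (bd q.1.1).m)) : JJ bd I :=
  ⟨q.1, ⟨pinv (bd q.1.1) q.2.1 o, by rw [pinv_fst]; exact q.2.2⟩⟩

theorem pp_fib : ∃ B : ℕ, ∀ z, ∃ s : Finset X, s.card ≤ B ∧ ∀ u, pp bd I u = z → u ∈ s := by
  classical
  refine ⟨1 + ∑ f ∈ I, ((bd f).m + 1), fun z => ?_⟩
  rcases h : jd bd I z.2 with _ | q
  · refine ⟨{z}, by rw [Finset.card_singleton]; omega, ?_⟩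
    rintro ⟨x, i⟩ rfl
    rw [Finset.mem_singleton]
    have h' : jd bd I (jl bd I (jpb bd I) i) = none := h
    rcases h2 : jd bd I i with _ | p
    · show _ = (x, jl bd I (jpb bd I) i)
      rw [jl_none _ _ _ h2]
    · rw [← BB_of_jd bd I h2, jl_BB, jd_BB] at h'
      exact absurd h' (by simp)
  · refine ⟨Finset.univ.image (fun o : Option (Fin (bd q.1.1).m) =>
      ((z.1, BB bd I (jinv bd I q o)) : X)), ?_, ?_⟩
    · refine Finset.card_image_le.trans ?_
      rw [Finset.card_univ, Fintype.card_option, Fintype.card_fin]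
      have := Finset.single_le_sum (f := fun f => (bd f).m + 1) (s := I) (fun _ _ => Nat.zero_le _)
        q.1.2
      omega
    · rintro ⟨x, i⟩ rfl
      have h' : jd bd I (jl bd I (jpb bd I) i) = some q := h
      rw [Finset.mem_image]
      rcases h2 : jd bd I i with _ | p
      · rw [jl_none _ _ _ h2, h2] at h'
        exact absurd h' (by simp)
      · have h3 := BB_of_jd bd I h2
        rw [← h3, jl_BB, jd_BB] at h'
        have h4 : jpb bd I p = q := Option.some.inj h'
        subst h4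
        refine ⟨p.2.1.2.2.1, Finset.mem_univ _, ?_⟩
        refine Prod.ext rfl ?_
        show BB bd I (jinv bd I (jpb bd I p) p.2.1.2.2.1) = i
        rw [← h3]
        congr 1
        rcases p with ⟨f, ⟨p, hp⟩⟩
        show (⟨f, ⟨pinv (bd f.1) (pbB (bd f.1) p) p.2.2.1, _⟩⟩ : JJ bd I) = ⟨f, ⟨p, hp⟩⟩
        congr 2
        exact pinv_pbB _ p

theorem tree : Tree par (pp bd I) :=
  ⟨par_inj, par_fib, pp_fib bd I, par_merge⟩

theorem mem_wp {σ : Equiv.Perm X} {c : X → ℂ} (h : MonoOK par (pp bd I) σ c) :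
    wp σ c ∈ NN par (pp bd I) :=
  Submodule.subset_span (Or.inl ⟨σ, c, h, rfl⟩)

theorem mem_rk (ξ η : L2 X) : rk ξ η ∈ NN par (pp bd I) :=
  Submodule.subset_span (Or.inr ⟨ξ, η, rfl⟩)

theorem mono_Lam (s : Fin 9) : MonoOK par (pp bd I) (Lam s) (fun _ => 1) := by
  refine ⟨bd_one, 1, fun u _ => ?_⟩
  rcases u with ⟨⟨l, hl⟩, i⟩
  by_cases h : l.head? = some s
  · refine ⟨1, le_rfl, 0, by norm_num, ?_⟩
    rcases l with _ | ⟨a, l⟩
    · simp at h
    · simp only [List.head?_cons, Option.some.injEq] at h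
      subst h
      show par (⟨a :: l, hl⟩, jl bd I (jpb bd I) i) = (RW.Ls a ⟨a :: l, hl⟩, jl bd I (jpb bd I) i)
      simp [par, RW.Ls, RW.tl]
  · refine ⟨0, by norm_num, 1, le_rfl, ?_⟩
    show (⟨l, hl⟩, jl bd I (jpb bd I) i) = par (RW.Ls s ⟨l, hl⟩, jl bd I (jpb bd I) i)
    simp [par, RW.Ls, RW.tl, h]

theorem mono_diag {c : X → ℂ} (hc : Bd c) : MonoOK par (pp bd I) 1 c :=
  ⟨hc, 0, fun _ _ => ⟨0, le_rfl, 0, le_rfl, rfl⟩⟩

theorem bd_oddc (χ : ℕ → Bool) : Bd (oddc χ) := by
  refine ⟨1, fun u => ?_⟩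
  unfold oddc
  split_ifs <;> simp

/-- finitely supported weighted permutations are sums of rank one operators -/
theorem wp_fin {σ : Equiv.Perm X} {c : X → ℂ} (hc : Bd c) (S : Finset X) (hS : ∀ u, u ∉ S → c u = 0) :
    wp σ c = ∑ u ∈ S, c u • rk (del (σ u)) (del u) := by
  classical
  refine ext_del (fun v => ?_)
  rw [wp_del _ hc, sum_apply]
  have h1 : ∀ u ∈ S, (c u • rk (del (σ u)) (del u)) (del v) =
      if u = v then c v • del (σ v) else (0 : L2 X) := by
    intro u _
    rw [smul_apply, InnerProductSpace.rankOne_apply, inner_del_left, del_apply]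
    by_cases h : u = v
    · subst h
      simp
    · rw [if_neg h, if_neg h]
      simp
  rw [Finset.sum_congr rfl h1, Finset.sum_ite_eq']
  split_ifs with h
  · rfl
  · rw [hS v h, zero_smul]

theorem conj_rk (W : L2 X →L[ℂ] L2 X) (ξ η : L2 X) : W * rk ξ η * star W = rk (W ξ) (W η) := by
  refine ContinuousLinearMap.ext (fun ζ => ?_)
  rw [mul_apply_eq_comp, mul_apply_eq_comp, InnerProductSpace.rankOne_apply,
    InnerProductSpace.rankOne_apply, map_smul, ContinuousLinearMap.star_eq_adjoint,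
    ContinuousLinearMap.adjoint_inner_right]

/-- the key lemma on killers -/
theorem killer (W : L2 X →L[ℂ] L2 X) (E : Set X) (hW : ∀ u ∈ E, W (del u) = del u)
    (σ : Equiv.Perm X) (c : X → ℂ) (hc : Bd c) (h1 : ∀ u ∈ E, c u ≠ 0 → σ u ∈ E)
    (h2 : ∀ u ∈ E, c u ≠ 0 → pp bd I u = pp bd I (σ u)) (h3 : {u | c u ≠ 0 ∧ u ∉ E}.Finite) :
    W * wp σ c * star W ∈ NN par (pp bd I) := by
  classical
  set c1 : X → ℂ := fun u => if u ∈ E then c u else 0 with hc1
  set c2 : X → ℂ := fun u => if u ∈ E then 0 else c u with hc2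
  have b1 : Bd c1 := by
    obtain ⟨C, hC⟩ := hc
    refine ⟨max C 0, fun u => ?_⟩
    rw [hc1]
    dsimp only
    split_ifs
    · exact (hC u).trans (le_max_left _ _)
    · simp
  have b2 : Bd c2 := by
    obtain ⟨C, hC⟩ := hc
    refine ⟨max C 0, fun u => ?_⟩
    rw [hc2]
    dsimp only
    split_ifs
    · simp
    · exact (hC u).trans (le_max_left _ _)
  have hsplit : wp σ c = wp σ c1 + wp σ c2 := by
    refine ext_del (fun u => ?_)
    rw [add_apply, wp_del _ hc, wp_del _ b1, wp_del _ b2, ← add_smul]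
    congr 1
    rw [hc1, hc2]
    dsimp only
    split_ifs <;> simp
  have k1 : W * wp σ c1 = wp σ c1 := by
    refine ext_del (fun u => ?_)
    rw [mul_apply_eq_comp, wp_del _ b1, map_smul]
    by_cases hu : c1 u = 0
    · rw [hu, zero_smul, zero_smul]
    · have hu1 : u ∈ E := by
        by_contra hne
        apply hu
        rw [hc1]
        dsimp only
        rw [if_neg hne]
      have hu2 : c u ≠ 0 := by
        intro h0
        apply hu
        rw [hc1]
        dsimp only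
        rw [if_pos hu1, h0]
      rw [hW _ (h1 u hu1 hu2)]
  have k2 : W * star (wp σ c1) = star (wp σ c1) := by
    rw [wp_adjoint _ b1]
    refine ext_del (fun u => ?_)
    rw [mul_apply_eq_comp, wp_del _ (b1.comp σ.symm).conj, map_smul]
    by_cases hu : c1 (σ.symm u) = 0
    · simp [hu]
    · have hu1 : σ.symm u ∈ E := by
        by_contra hne
        apply hu
        rw [hc1]
        dsimp only
        rw [if_neg hne]
      rw [hW _ hu1]
  have k3 : W * wp σ c1 * star W = wp σ c1 := by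
    rw [k1]
    have := congrArg star k2
    rw [star_mul, star_star] at this
    exact this
  rw [hsplit, mul_add, add_mul, k3]
  refine Submodule.add_mem _ ?_ ?_
  · refine mem_wp bd I ⟨b1, 0, fun u hu => ⟨0, le_rfl, 0, le_rfl, ?_⟩⟩
    have hu1 : u ∈ E := by
      by_contra hne
      apply hu
      rw [hc1]
      dsimp only
      rw [if_neg hne]
    have hu2 : c u ≠ 0 := by
      intro h0
      apply hu
      rw [hc1]
      dsimp only
      rw [if_pos hu1, h0]
    exact h2 u hu1 hu2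
  · rw [wp_fin b2 h3.toFinset (fun u hu => ?_)]
    · rw [Finset.mul_sum, Finset.sum_mul]
      refine Submodule.sum_mem _ (fun u _ => ?_)
      rw [mul_smul_comm, smul_mul_assoc, conj_rk]
      exact Submodule.smul_mem _ _ (mem_rk bd I _ _)
    · rw [Set.Finite.mem_toFinset, Set.mem_ofPred_eq, not_and_or, not_not, not_not] at hu
      rw [hc2]
      dsimp only
      rcases hu with hu | hu
      · rw [hu]; simp
      · rw [if_pos hu]

theorem tau_le (n l : ℕ) : ‖((tau n l : ℝ) : ℂ)‖ ≤ 1 := by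
  rw [Complex.norm_real]
  unfold tau
  rw [Real.norm_of_nonneg (le_max_left _ _)]
  refine max_le zero_le_one ?_
  have : (0 : ℝ) ≤ (l : ℝ) / ((n : ℝ) + 1) := by positivity
  linarith

theorem tau_ne {n l : ℕ} (h : ((tau n l : ℝ) : ℂ) ≠ 0) : l ≤ n := by
  by_contra hl
  push Not at hl
  apply h
  unfold tau
  have h1 : (1 : ℝ) ≤ (l : ℝ) / ((n : ℝ) + 1) := by
    rw [le_div_iff₀ (by positivity)]
    have : ((n + 1 : ℕ) : ℝ) ≤ (l : ℝ) := by exact_mod_cast hl
    push_cast at this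
    linarith
  rw [max_eq_left (by linarith)]
  simp

theorem fin_len (n : ℕ) : {x : RW | x.len ≤ n}.Finite := by
  have h := List.finite_length_le (Fin 9) n
  exact Set.Finite.preimage (f := fun x : RW => x.1) (Subtype.val_injective.injOn) h

theorem fin_supp (had : ∀ f g, f ≠ g → (A f ∩ A g).Finite) (f : F) :
    {u : X | ∃ p : BI (bd f).m (bd f).k, (bd f).b p = u.2 ∧ p.1 ∉ Tl bd I f ∧
      u.1.len ≤ p.1}.Finite := by
  have h1 : (⋃ n ∈ (Tl bd I f)ᶜ, ⋃ q : Bool × Option (Fin (bd f).m) × Fin ((bd f).k n),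
      {x : RW | x.len ≤ n} ×ˢ {(bd f).b ⟨n, q⟩}).Finite := by
    refine Set.Finite.biUnion (Tl_compl_finite bd I had f) (fun n _ => ?_)
    refine Set.finite_iUnion (fun q => ?_)
    exact (fin_len n).prod (Set.finite_singleton _)
  refine h1.subset ?_
  rintro ⟨x, i⟩ ⟨⟨n, q⟩, hp, hn, hx⟩
  rw [Set.mem_iUnion₂]
  refine ⟨n, hn, ?_⟩
  rw [Set.mem_iUnion]
  exact ⟨q, hx, hp.symm⟩

/-- active columns for `f` -/
def EE (f : F) : Set X := {u | ∃ p : BI (bd f).m (bd f).k, (bd f).b p = u.2 ∧ p.1 ∈ Tl bd I f}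

/-- the comparison operator -/
def WW (f : F) : L2 X →L[ℂ] L2 X := (rho bd I).U * (bd f).rot.U

theorem star_WW (f : F) : star (WW bd I f) = (bd f).rot.U * (rho bd I).U := by
  unfold WW
  rw [star_mul, U_star, U_star]

theorem WW_del (f : F) (hf : f ∈ I) (u : X) (hu : u ∈ EE bd I f) :
    WW bd I f (del u) = del u := by
  rcases u with ⟨x, i⟩
  obtain ⟨p, hp, ht⟩ := hu
  have h1 := rho_del bd I ⟨⟨f, hf⟩, ⟨p, ht⟩⟩ x
  have h2 : BB bd I ⟨⟨f, hf⟩, ⟨p, ht⟩⟩ = i := hp
  rw [h2] at h1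
  unfold WW
  rw [mul_apply_eq_comp]
  have h3 : (bd f).rot.U (del (x, i)) = (rho bd I).U (del (x, i)) := h1.symm
  rw [h3, ← mul_apply_eq_comp, U_U]
  rfl

theorem pp_act (f : F) (hf : f ∈ I) (p : BI (bd f).m (bd f).k) (hp : p.1 ∈ Tl bd I f) (x : RW) :
    pp bd I (x, (bd f).b p) = (x, (bd f).b (pbB (bd f) p)) := by
  have h := jl_BB bd I (jpb bd I) ⟨⟨f, hf⟩, ⟨p, hp⟩⟩
  exact Prod.ext rfl h

theorem cX_ne {f : F} {j : Fin (bd f).m} {u : X} (h : (bd f).cX j u ≠ 0) :
    ∃ n c, (bd f).b ⟨n, true, (some j, c)⟩ = u.2 ∧ u.1.len ≤ n := by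
  unfold BD.cX at h
  rcases h2 : (bd f).dec u.2 with _ | ⟨n, _ | _, _ | j', c⟩
  · rw [h2] at h; exact absurd rfl h
  · rw [h2] at h; exact absurd rfl h
  · rw [h2] at h; exact absurd rfl h
  · rw [h2] at h; exact absurd rfl h
  · rw [h2] at h
    simp only at h
    split_ifs at h with h3
    · subst h3
      exact ⟨n, c, (bd f).b_of_dec h2, tau_ne h⟩
    · exact absurd rfl h

theorem cY_ne {f : F} {j : Fin (bd f).m} {u : X} (h : (bd f).cY j u ≠ 0) :
    ∃ n c, (bd f).b ⟨n, false, (none, c)⟩ = u.2 ∧ u.1.len ≤ n := by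
  unfold BD.cY at h
  rcases h2 : (bd f).dec u.2 with _ | ⟨n, _ | _, _ | j', c⟩
  · rw [h2] at h; exact absurd rfl h
  · rw [h2] at h
    exact ⟨n, c, (bd f).b_of_dec h2, tau_ne h⟩
  · rw [h2] at h; exact absurd rfl h
  · rw [h2] at h; exact absurd rfl h
  · rw [h2] at h; exact absurd rfl h

theorem bd_cX (f : F) (j : Fin (bd f).m) : Bd ((bd f).cX j) := by
  refine ⟨1, fun u => ?_⟩
  unfold BD.cX
  rcases h2 : (bd f).dec u.2 with _ | ⟨n, _ | _, _ | j', c⟩
  · simp
  · simp
  · simp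
  · simp
  · simp only
    split_ifs
    · exact tau_le _ _
    · simp

theorem bd_cY (f : F) (j : Fin (bd f).m) : Bd ((bd f).cY j) := by
  refine ⟨1, fun u => ?_⟩
  unfold BD.cY
  rcases h2 : (bd f).dec u.2 with _ | ⟨n, _ | _, _ | j', c⟩
  · simp
  · exact tau_le _ _
  · simp
  · simp
  · simp

theorem mem_X0 (had : ∀ f g, f ≠ g → (A f ∩ A g).Finite) (f : F) (hf : f ∈ I)
    (j : Fin (bd f).m) : WW bd I f * (bd f).X0 j * star (WW bd I f) ∈ NN par (pp bd I) := by
  unfold BD.X0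
  refine killer bd I _ (EE bd I f) (WW_del bd I f hf) _ _ (bd_cX bd f j) ?_ ?_ ?_
  · rintro ⟨x, i⟩ ⟨p, hp, ht⟩ hne
    obtain ⟨n, c, hb, hl⟩ := cX_ne bd hne
    have hpp : p = ⟨n, true, (some j, c)⟩ := (bd f).inj (hp.trans hb.symm)
    subst hpp
    refine ⟨(bd f).swX j ⟨n, true, (some j, c)⟩, ?_, ?_⟩
    · show _ = (bd f).lift ((bd f).swX j) i
      have hb' : (bd f).b ⟨n, true, (some j, c)⟩ = i := hb
      rw [← hb', (bd f).lift_b]
    · have : (bd f).swX j ⟨n, true, (some j, c)⟩ = ⟨n, true, (none, (bd f).w n j c)⟩ := by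
        simp [BD.swX]
      rw [this]
      exact ht
  · rintro ⟨x, i⟩ ⟨p, hp, ht⟩ hne
    obtain ⟨n, c, hb, hl⟩ := cX_ne bd hne
    have hpp : p = ⟨n, true, (some j, c)⟩ := (bd f).inj (hp.trans hb.symm)
    subst hpp
    have hb' : (bd f).b ⟨n, true, (some j, c)⟩ = i := hb
    show pp bd I (x, i) = pp bd I (x, (bd f).lift ((bd f).swX j) i)
    rw [← hb', (bd f).lift_b]
    have : (bd f).swX j ⟨n, true, (some j, c)⟩ = ⟨n, true, (none, (bd f).w n j c)⟩ := by
      simp [BD.swX]
    have e2 := pp_act bd I f hf ⟨n, true, (none, (bd f).w n j c)⟩ ht x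
    rw [this, pp_act bd I f hf _ ht, e2]
    rfl
  · refine (fin_supp bd I had f).subset ?_
    rintro ⟨x, i⟩ ⟨hne, hE⟩
    obtain ⟨n, c, hb, hl⟩ := cX_ne bd hne
    refine ⟨_, hb, fun ht => hE ⟨_, hb, ht⟩, hl⟩

theorem mem_Y0 (had : ∀ f g, f ≠ g → (A f ∩ A g).Finite) (f : F) (hf : f ∈ I)
    (j : Fin (bd f).m) : WW bd I f * (bd f).Y0 j * star (WW bd I f) ∈ NN par (pp bd I) := by
  unfold BD.Y0
  refine killer bd I _ (EE bd I f) (WW_del bd I f hf) _ _ (bd_cY bd f j) ?_ ?_ ?_
  · rintro ⟨x, i⟩ ⟨p, hp, ht⟩ hne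
    obtain ⟨n, c, hb, hl⟩ := cY_ne bd hne
    have hpp : p = ⟨n, false, (none, c)⟩ := (bd f).inj (hp.trans hb.symm)
    subst hpp
    refine ⟨(bd f).swY j ⟨n, false, (none, c)⟩, ?_, ?_⟩
    · show _ = (bd f).lift ((bd f).swY j) i
      have hb' : (bd f).b ⟨n, false, (none, c)⟩ = i := hb
      rw [← hb', (bd f).lift_b]
    · exact ht
  · rintro ⟨x, i⟩ ⟨p, hp, ht⟩ hne
    obtain ⟨n, c, hb, hl⟩ := cY_ne bd hne
    have hpp : p = ⟨n, false, (none, c)⟩ := (bd f).inj (hp.trans hb.symm)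
    subst hpp
    have hb' : (bd f).b ⟨n, false, (none, c)⟩ = i := hb
    show pp bd I (x, i) = pp bd I (x, (bd f).lift ((bd f).swY j) i)
    rw [← hb', (bd f).lift_b]
    have : (bd f).swY j ⟨n, false, (none, c)⟩ = ⟨n, false, (some j, c)⟩ := rfl
    have e2 := pp_act bd I f hf ⟨n, false, (some j, c)⟩ ht x
    rw [this, pp_act bd I f hf _ ht, e2]
    rfl
  · refine (fin_supp bd I had f).subset ?_
    rintro ⟨x, i⟩ ⟨hne, hE⟩
    obtain ⟨n, c, hb, hl⟩ := cY_ne bd hne
    refine ⟨_, hb, fun ht => hE ⟨_, hb, ht⟩, hl⟩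

end Glob2

/-- Packet P16. -/
theorem rotStmt : RotStmt := by
  intro F A bd had hev I
  refine ⟨(rho bd I).U, par, pp bd I, U_star _, U_U _, tree bd I, ?_⟩
  rintro T (⟨s, rfl⟩ | ⟨χ, rfl⟩ | ⟨ξ, η, rfl⟩ | ⟨f, hf, j, rfl⟩ | ⟨f, hf, j, rfl⟩)
  · rw [U_Lam, mul_assoc, U_U, mul_one]
    exact mem_wp bd I (mono_Lam bd I s)
  · have h1 : (rho bd I).U * wp 1 (oddc χ) = wp 1 (oddc χ) := by
      refine ext_del (fun u => ?_)
      rw [mul_apply_eq_comp, wp_del _ (bd_oddc χ), map_smul]
      by_cases hu : oddc χ u = 0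
      · rw [hu, zero_smul, zero_smul]
      · have hodd : Odd u.2 := by
          by_contra hne
          apply hu
          unfold oddc
          rw [if_neg (fun h => hne h.1)]
        have hnone : jd bd I u.2 = none := by
          rcases h : jd bd I u.2 with _ | p
          · rfl
          · exfalso
            have h2 := BB_of_jd bd I h
            have h3 := hev p.1.1 _ ((bd p.1.1).mem p.2.1)
            have h4 : (bd p.1.1).b p.2.1 = u.2 := h2
            rw [h4] at h3
            exact (Nat.not_even_iff_odd.2 hodd) h3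
        rw [show ((1 : Equiv.Perm X) u) = u from rfl, U_del_none _ (rho_none bd I hnone)]
    have h2 : star (wp 1 (oddc χ) : L2 X →L[ℂ] L2 X) = wp 1 (oddc χ) := by
      rw [wp_adjoint _ (bd_oddc χ)]
      congr 1
      funext u
      show conj (oddc χ u) = oddc χ u
      unfold oddc
      split_ifs <;> simp
    have h3 : wp 1 (oddc χ) * (rho bd I).U = wp 1 (oddc χ) := by
      have := congrArg star h1
      rw [star_mul, U_star, h2] at this
      exact this
    rw [h1, h3]
    exact mem_wp bd I (mono_diag bd I (bd_oddc χ))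
  · have h := conj_rk (rho bd I).U ξ η
    rw [U_star] at h
    rw [h]
    exact mem_rk bd I _ _
  · have h := mem_X0 bd I had f hf j
    rw [star_WW] at h
    unfold WW at h
    unfold BD.XX
    simp only [mul_assoc] at h ⊢
    exact h
  · have h := mem_Y0 bd I had f hf j
    rw [star_WW] at h
    unfold WW at h
    unfold BD.YY
    simp only [mul_assoc] at h ⊢
    exact h

end

end Pool.Agent.Helper11.NE
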